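import Mathlib

/-!
# Towers over diffeomorphisms of tori: definitions

Diffeomorphisms of tori are described through their lifts to `ℝ^n`.
-/

set_option autoImplicit false

open Set Filter Topology Function

namespace Pool.Agent.H922R3.CL

/-- The lattice `ℤ^n` of `ℝ^n`. -/
def Zn (n : ℕ) : AddSubgroup (Fin n → ℝ) where
  carrier := {v | ∀ i, ∃ k : ℤ, v i = k}
  zero_mem' := fun _ => ⟨0, by simp⟩
  add_mem' := fun {a b} ha hb i => by
    obtain ⟨k, hk⟩ := ha i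
    obtain ⟨l, hl⟩ := hb i
    exact ⟨k + l, by rw [Pi.add_apply, hk, hl]; push_cast; ring⟩
  neg_mem' := fun {a} ha i => by
    obtain ⟨k, hk⟩ := ha i
    exact ⟨-k, by rw [Pi.neg_apply, hk]; push_cast; ring⟩

/-- The space `ℝ^d × ℝ^e × ℝ^m`, the universal covering of the torus `𝕋^d × 𝕋^e × 𝕋^m`. -/
abbrev V (d e m : ℕ) : Type := (Fin d → ℝ) × (Fin e → ℝ) × (Fin m → ℝ)

/-- The lattice `ℤ^d × ℤ^e × ℤ^m`. -/
def ZV (d e m : ℕ) : AddSubgroup (V d e m) := (Zn d).prod ((Zn e).prod (Zn m))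

section general

variable {W : Type*} [NormedAddCommGroup W] [NormedSpace ℝ W]

/-- `F` is a lift to `W` of a `C^r` diffeomorphism of the torus `W / Λ`. -/
structure IsDiffeoLift (Λ : AddSubgroup W) (r : ℕ∞) (F : W ≃ W) : Prop where
  smooth : ContDiff ℝ r F
  smooth_symm : ContDiff ℝ r F.symm
  equiv : ∃ A : Λ ≃+ Λ, ∀ (z : W) (u : Λ), F (z + u) = F z + A u

/-- The point of `W / Λ` represented by `z` is chain recurrent for the map with lift `F`: for every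
`δ > 0` it lies on a closed `δ`-chain. -/
def IsChainRec (Λ : AddSubgroup W) (F : W → W) (z : W) : Prop :=
  ∀ δ : ℝ, 0 < δ → ∃ (n : ℕ) (c : ℕ → W), 1 ≤ n ∧ c 0 = z ∧ c n - z ∈ Λ ∧
    ∀ j < n, dist (F (c j)) (c (j + 1)) < δ

/-- The point of `W / Λ` represented by `z` is periodic for the map with lift `F`. -/
def IsPer (Λ : AddSubgroup W) (F : W → W) (z : W) : Prop :=
  ∃ n : ℕ, 1 ≤ n ∧ F^[n] z - z ∈ Λ

/-- Periodic shadowing for the map of `W / Λ` with lift `H`: every closed `δ`-chain is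
`ε`-shadowed by a periodic orbit of the same length. -/
def PerShadow (Λ : AddSubgroup W) (H : W → W) : Prop :=
  ∀ ε : ℝ, 0 < ε → ∃ δ : ℝ, 0 < δ ∧ ∀ (n : ℕ) (c : ℕ → W), 1 ≤ n → c n - c 0 ∈ Λ →
    (∀ j < n, dist (H (c j)) (c (j + 1)) < δ) →
    ∃ p, H^[n] p = p + (c n - c 0) ∧ ∀ j ≤ n, dist (H^[j] p) (c j) < ε

/-- `L` is a hyperbolic linear isomorphism: `W` is the direct sum of two `L`-invariant subspaces
(the image and the kernel of the projection `P`), contracted exponentially fast by the positive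
iterates of `L`, respectively of `L⁻¹`. -/
def IsHypLin (L : W ≃L[ℝ] W) : Prop :=
  ∃ (P : W →L[ℝ] W) (C μ : ℝ), 0 < C ∧ 0 < μ ∧ μ < 1 ∧ (∀ v, P (P v) = P v) ∧
    (∀ v, L (P v) = P (L v)) ∧ ∀ (n : ℕ) (v : W),
      ‖L^[n] (P v)‖ ≤ C * μ ^ n * ‖v‖ ∧ ‖L.symm^[n] (v - P v)‖ ≤ C * μ ^ n * ‖v‖

/-- The map of the torus `W / Λ` with lift `H` is topologically conjugate to the hyperbolic
automorphism `L`. The conjugacy has the lift `Φ`. -/
def ConjHyp (Λ : AddSubgroup W) (H : W → W) : Prop :=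
  ∃ (L : W ≃L[ℝ] W) (Φ : W ≃ₜ W) (B : Λ ≃+ Λ), IsHypLin L ∧ (∀ u, u ∈ Λ ↔ L u ∈ Λ) ∧
    (∀ (z : W) (u : Λ), Φ (z + u) = Φ z + B u) ∧ ∀ z, H (Φ z) = Φ (L z)

end general

variable {d e m : ℕ}

/-- The diffeomorphism of `𝕋^d × 𝕋^e × 𝕋^m` with lift `F` is a tower over the map `H` of `𝕋^d`:
`F (b, x, y) = (H b, (g_i (b, x_i))_{i < e}, (y_i + φ_i (b, x, y_0, …, y_{i-1}))_{i < m})`
where the circle diffeomorphisms `g_i (b, ·)` preserve the orientation. -/
structure IsTower (r : ℕ∞) (H : (Fin d → ℝ) → (Fin d → ℝ)) (F : V d e m ≃ V d e m) : Prop where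
  diffeo : IsDiffeoLift (ZV d e m) r F
  tower : ∃ (g : Fin e → (Fin d → ℝ) → ℝ → ℝ) (φ : Fin m → V d e m → ℝ),
    (∀ b x y, F (b, x, y) = (H b, fun i => g i b (x i), fun i => y i + φ i (b, x, y))) ∧
    (∀ i b, StrictMono (g i b)) ∧
    ∀ i b x y y', (∀ j < i, y j = y' j) → φ i (b, x, y) = φ i (b, x, y')

end Pool.Agent.H922R3.CL
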